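import Pool.Agent.Helper40.CN.Spec

/-!
# CN, part ABS
-/

set_option autoImplicit false
set_option linter.style.haveILetI false

namespace Pool.Agent.Helper57.CN

open Pool.Agent.Helper40.CN

universe u

/-- A finitely generated abelian group which is `q`-divisible is finite. -/
theorem finite_of_fg_of_divisible (B : Type u) [CommGroup B] [Group.FG B] (q : ℕ) (hq : 2 ≤ q)
    (h : ∀ x : B, ∃ b : B, x = b ^ q) : Finite B := by
  have hfg : Module.Finite ℤ (Additive B) := Module.Finite.iff_addGroup_fg.mpr inferInstance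
  obtain ⟨r, hr1, hr2⟩ := Submodule.exists_sub_one_mem_and_smul_eq_zero_of_fg_of_le_smul
    (Ideal.span {(q : ℤ)}) (⊤ : Submodule ℤ (Additive B)) hfg.fg_top (by
      intro x _
      obtain ⟨b, hb⟩ := h (Additive.toMul x)
      have hx : x = (q : ℤ) • Additive.ofMul b := by
        rw [natCast_zsmul, ← ofMul_pow, ← hb]
        rfl
      rw [hx]
      exact Submodule.smul_mem_smul (Ideal.mem_span_singleton_self _) trivial)
  have hr0 : r ≠ 0 := by
    rintro rfl
    rw [Ideal.mem_span_singleton] at hr1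
    have h1 : (q : ℤ) ∣ 1 := by
      have := (dvd_neg).2 hr1
      simpa using this
    have h2 := Int.le_of_dvd one_pos h1
    omega
  apply CommGroup.finite_of_fg_isMulTorsion
  intro x
  have h3 : r • (Additive.ofMul x) = 0 := hr2 _ trivial
  rw [← ofMul_zpow] at h3
  have h4 : x ^ r = 1 := h3
  exact isOfFinOrder_iff_zpow_eq_one.2 ⟨r, hr0, h4⟩

/-- B12. finitely generated abstract groups -/
theorem abs (hKEY : S_KEY.{u}) (hSZ : S_SZ.{u}) : S_ABS.{u} := by
  intro G _ _ k w N _ A _ hidx hAc hnil hmarg hfin hcent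
  have : N.FiniteIndex := ⟨hidx⟩
  have hNfg : Group.FG N := Subgroup.fg_of_index_ne_zero N
  set V : Subgroup G := verbal w G with hV
  -- `N` centralises `V`
  have hVc : V ≤ Subgroup.centralizer (N : Set G) := by
    rw [hV, verbal, Subgroup.closure_le]
    intro v hv
    rw [SetLike.mem_coe, Subgroup.mem_centralizer_iff]
    intro n hn
    exact hcent n hn v hv
  have : Finite (wordValues w G) := hfin
  have hVfg : Group.FG V := Group.closure_finite_fg (wordValues w G)
  have hVNfg : Group.FG (N.subgroupOf V) := Subgroup.fg_of_index_ne_zero (N.subgroupOf V)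
  set B : Subgroup N := V.subgroupOf N with hB
  have hBc : B ≤ Subgroup.center N := by
    intro b hb
    rw [Subgroup.mem_center_iff]
    intro n
    have h1 := Subgroup.mem_centralizer_iff.1 (hVc (Subgroup.mem_subgroupOf.1 hb)) n n.2
    exact Subtype.ext h1
  have hBfg : B.FG := by
    let f : (N.subgroupOf V) →* N :=
      { toFun := fun x => ⟨((x : V) : G), Subgroup.mem_subgroupOf.1 x.2⟩
        map_one' := rfl
        map_mul' := fun _ _ => rfl }
    have h1 : B = f.range := by
      ext x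
      constructor
      · intro hx
        exact ⟨⟨⟨(x : G), Subgroup.mem_subgroupOf.1 hx⟩, Subgroup.mem_subgroupOf.2 x.2⟩, rfl⟩
      · rintro ⟨y, rfl⟩
        exact Subgroup.mem_subgroupOf.2 (y : V).2
    rw [h1, ← Group.fg_iff_subgroup_fg]
    infer_instance
  obtain ⟨q, hqlt, hq⟩ := Nat.exists_infinite_primes (N.index + 1)
  have : Fact q.Prime := ⟨hq⟩
  have hqn : ¬ q ∣ N.index := by
    intro hd
    have := Nat.le_of_dvd (Nat.pos_of_ne_zero hidx) hd
    omega
  obtain ⟨M, hMn, hMfin, hMp, hMB⟩ := hKEY N A hAc hnil q B hBc hBfg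
  -- the exponent of `N/M`
  obtain ⟨e, he⟩ := (IsPGroup.iff_card).1 hMp
  have hpow : ∀ n : N, n ^ (q ^ e) ∈ M := by
    intro n
    rw [← QuotientGroup.eq_one_iff, QuotientGroup.mk_pow, ← he]
    exact pow_card_eq_one'
  have hMfi : M.FiniteIndex := Subgroup.finiteIndex_of_finite_quotient
  set M₁ : Subgroup G := M.map N.subtype with hM₁
  have hM₁fi : M₁.FiniteIndex := by
    refine ⟨?_⟩
    rw [hM₁, Subgroup.index_map_subtype]
    exact mul_ne_zero hMfi.index_ne_zero hidx
  set M' : Subgroup G := M₁.normalCore with hM'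
  have hM'N : M' ≤ N := by
    refine (Subgroup.normalCore_le M₁).trans ?_
    rw [hM₁]
    rintro _ ⟨x, -, rfl⟩
    exact x.2
  have hpow' : ∀ n : N, (n : G) ^ (q ^ e) ∈ M' := by
    intro n b
    have h1 : b * (n : G) ^ (q ^ e) * b⁻¹ = (b * (n : G) * b⁻¹) ^ (q ^ e) := (conj_pow).symm
    rw [h1]
    refine ⟨(⟨b * (n : G) * b⁻¹, Subgroup.Normal.conj_mem inferInstance _ n.2 b⟩ : N) ^ (q ^ e),
      hpow _, ?_⟩
    simp
  have hM'p : IsPGroup q (N ⧸ M'.subgroupOf N) := by
    intro x
    obtain ⟨n, rfl⟩ := QuotientGroup.mk_surjective x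
    refine ⟨e, ?_⟩
    rw [← QuotientGroup.mk_pow, QuotientGroup.eq_one_iff, Subgroup.mem_subgroupOf]
    simpa using hpow' n
  have : (M'.subgroupOf N).FiniteIndex := inferInstance
  obtain ⟨a, ha⟩ := (IsPGroup.iff_card).1 hM'p
  have hrel : M'.relIndex N = q ^ a := by
    rw [Subgroup.relIndex, Subgroup.index_eq_card, ha]
  have hBM : ∀ v ∈ V, v ∈ N → v ∈ M' :=
    hSZ G k w N M' hM'N hidx hmarg q a hq hrel hqn
  have hdiv : ∀ x ∈ B, ∃ b ∈ B, x = b ^ q := by
    intro x hx
    have h1 : (x : G) ∈ M' := hBM x (Subgroup.mem_subgroupOf.1 hx) x.2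
    obtain ⟨y, hy, hyx⟩ := Subgroup.normalCore_le M₁ h1
    have h2 : y = x := Subtype.ext hyx
    exact (hMB x hx).1 (h2 ▸ hy)
  -- `B` is finite
  have hBfin : Finite B := by
    let : CommGroup B :=
      { (inferInstance : Group B) with
        mul_comm := fun x y => by
          apply Subtype.ext
          exact ((Subgroup.mem_center_iff.1 (hBc x.2)) y).symm }
    have : Group.FG B := (Group.fg_iff_subgroup_fg B).2 hBfg
    refine finite_of_fg_of_divisible B q hq.two_le ?_
    rintro ⟨x, hx⟩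
    obtain ⟨b, hb, hxb⟩ := hdiv x hx
    exact ⟨⟨b, hb⟩, Subtype.ext hxb⟩
  have hVNfin : Finite (N.subgroupOf V) := by
    refine Finite.of_injective (fun x : N.subgroupOf V =>
      (⟨⟨((x : V) : G), Subgroup.mem_subgroupOf.1 x.2⟩,
        Subgroup.mem_subgroupOf.2 (x : V).2⟩ : B)) ?_
    intro x y hxy
    apply Subtype.ext
    apply Subtype.ext
    exact congrArg (fun z : B => ((z : N) : G)) hxy
  have hVfin : Finite V :=
    (Subgroup.finite_iff_finite_and_finiteIndex (N.subgroupOf V)).2 ⟨hVNfin, inferInstance⟩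
  exact Set.toFinite _

end Pool.Agent.Helper57.CN
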